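import Pool.Agent.R100.LS.Stm

set_option autoImplicit false

/-!
# The line-switching game: even sets from labels (project LS, helper100)
-/

namespace Pool.Agent.R100.LS

open Finset
open scoped Classical

lemma tele {α : Type*} {M : Type*} [AddCommMonoid M] (φ : α → ℝ) (h : α → M) (x : M)
    (s : Finset α) : Set.InjOn φ s →
    (s.filter (fun p => ∑ q ∈ s.filter (fun q => φ p < φ q), h q = x)).card +
      (if ∑ q ∈ s, h q = x then 1 else 0) =
    (s.filter (fun p => ∑ q ∈ s.filter (fun q => φ p ≤ φ q), h q = x)).card +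
      (if (0 : M) = x then 1 else 0) := by
  induction s using Finset.induction_on_min_value φ with
  | empty =>
    intro _
    rw [filter_empty, filter_empty, sum_empty]
  | insert a s ha hmin ih =>
    intro hinj
    have hinj' : Set.InjOn φ s := hinj.mono (by simp)
    have hlt : ∀ y ∈ s, φ a < φ y := by
      intro y hy
      refine lt_of_le_of_ne (hmin y hy) ?_
      intro he
      have := hinj (by simp) (by simp [hy]) he
      exact ha (this ▸ hy)
    have ih' := ih hinj'
    have e1 : ∀ p ∈ s, (insert a s).filter (fun q => φ p < φ q) = s.filter (fun q => φ p < φ q) := by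
      intro p hp
      rw [filter_insert, if_neg (not_lt.2 (hlt p hp).le)]
    have e2 : ∀ p ∈ s, (insert a s).filter (fun q => φ p ≤ φ q) = s.filter (fun q => φ p ≤ φ q) := by
      intro p hp
      rw [filter_insert, if_neg (not_le.2 (hlt p hp))]
    have e3 : (insert a s).filter (fun q => φ a < φ q) = s := by
      rw [filter_insert, if_neg (lt_irrefl _), filter_true_of_mem hlt]
    have e4 : (insert a s).filter (fun q => φ a ≤ φ q) = insert a s := by
      rw [filter_insert, if_pos le_rfl, filter_true_of_mem (fun y hy => (hlt y hy).le)]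
    have A1 : ((insert a s).filter (fun p => ∑ q ∈ (insert a s).filter (fun q => φ p < φ q), h q = x)).card
        = (if ∑ q ∈ s, h q = x then 1 else 0) +
          (s.filter (fun p => ∑ q ∈ s.filter (fun q => φ p < φ q), h q = x)).card := by
      rw [card_filter, sum_insert ha, e3, card_filter]
      congr 1
      exact sum_congr rfl (fun p hp => by rw [e1 p hp])
    have A2 : ((insert a s).filter (fun p => ∑ q ∈ (insert a s).filter (fun q => φ p ≤ φ q), h q = x)).card
        = (if ∑ q ∈ insert a s, h q = x then 1 else 0) +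
          (s.filter (fun p => ∑ q ∈ s.filter (fun q => φ p ≤ φ q), h q = x)).card := by
      rw [card_filter, sum_insert ha, e4, card_filter]
      congr 1
      exact sum_congr rfl (fun p hp => by rw [e2 p hp])
    rw [A1, A2]
    omega

/-- the label sum to the right of `p` -/
noncomputable def cc {V : Type*} [AddCommGroup V] (P : Finset (ℝ × ℝ)) (h : ℝ × ℝ → V)
    (p : ℝ × ℝ) : V := ∑ q ∈ P.filter (fun q => p.1 < q.1), h q

/-- the even sets -/
noncomputable def AA {V : Type*} [AddCommGroup V] (P : Finset (ℝ × ℝ)) (h : ℝ × ℝ → V)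
    (x : V) : Finset (ℝ × ℝ) := P.filter (fun p => h p ≠ 0 ∧ (x = cc P h p ∨ x = cc P h p + h p))

variable {V : Type*} [AddCommGroup V] {P : Finset (ℝ × ℝ)} {h : ℝ × ℝ → V}

lemma nsmul_two (h2 : ∀ v : V, v + v = 0) (v : V) (k : ℕ) : k • v = 0 ∨ k • v = v := by
  induction k with
  | zero => left; simp
  | succ k ih =>
    rw [succ_nsmul]
    rcases ih with ih | ih
    · right; rw [ih, zero_add]
    · left; rw [ih, h2]

lemma neg_self_two (h2 : ∀ v : V, v + v = 0) (v : V) : -v = v :=
  neg_eq_of_add_eq_zero_left (h2 v)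

/-- points seen from `p` under a slope smaller than `m` -/
lemma low_sum (h2 : ∀ v : V, v + v = 0)
    (hx : ∀ p ∈ P, ∀ q ∈ P, p.1 = q.1 → p = q)
    (H : ∀ L : ℝ × ℝ, 2 ≤ (P.filter (fun r => On L r)).card → ∑ r ∈ P.filter (fun r => On L r), h r = 0)
    {p : ℝ × ℝ} (hp : p ∈ P) (m : ℝ) :
    ∑ q ∈ P.filter (fun q => q ≠ p ∧ (q.2 - p.2) / (q.1 - p.1) < m), h q = 0 ∨
    ∑ q ∈ P.filter (fun q => q ≠ p ∧ (q.2 - p.2) / (q.1 - p.1) < m), h q = h p := by
  set S := P.filter (fun q => q ≠ p ∧ (q.2 - p.2) / (q.1 - p.1) < m) with hS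
  set sl : ℝ × ℝ → ℝ := fun q => (q.2 - p.2) / (q.1 - p.1) with hsl
  have h1 : ∑ q ∈ S, h q = ∑ μ ∈ S.image sl, ∑ q ∈ S.filter (fun q => sl q = μ), h q :=
    (sum_fiberwise_of_maps_to (fun q hq => mem_image_of_mem sl hq) _).symm
  have h3 : ∀ μ ∈ S.image sl, ∑ q ∈ S.filter (fun q => sl q = μ), h q = h p := by
    intro μ hμ
    obtain ⟨q0, hq0, rfl⟩ := mem_image.1 hμ
    have hq0' := (mem_filter.1 hq0)
    have e : S.filter (fun q => sl q = sl q0) =
        (P.filter (fun r => On (sl q0, p.2 - sl q0 * p.1) r)).erase p := by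
      ext q
      simp only [hS, mem_filter, mem_erase]
      simp only [On]
      constructor
      · rintro ⟨⟨hq, hne, hlt⟩, he⟩
        refine ⟨hne, hq, ?_⟩
        have hd : q.1 - p.1 ≠ 0 := fun h0 => hne (hx q hq p hp (by linarith))
        have : q.2 - p.2 = sl q * (q.1 - p.1) := by
          simp only [hsl]; field_simp
        rw [he] at this
        linarith
      · rintro ⟨hne, hq, he⟩
        have hd : q.1 - p.1 ≠ 0 := fun h0 => hne (hx q hq p hp (by linarith))
        have h5 : sl q = sl q0 := by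
          simp only [hsl] at he ⊢
          rw [div_eq_iff hd]
          linarith
        refine ⟨⟨hq, hne, ?_⟩, h5⟩
        have := hq0'.2.2
        show sl q < m
        rw [h5]; exact this
    have hpm : p ∈ P.filter (fun r => On (sl q0, p.2 - sl q0 * p.1) r) := by
      rw [mem_filter]
      exact ⟨hp, by simp [On]⟩
    have hqm : q0 ∈ P.filter (fun r => On (sl q0, p.2 - sl q0 * p.1) r) := by
      have : q0 ∈ S.filter (fun q => sl q = sl q0) := mem_filter.2 ⟨hq0, rfl⟩
      rw [e] at this
      exact mem_of_mem_erase this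
    have hcard : 2 ≤ (P.filter (fun r => On (sl q0, p.2 - sl q0 * p.1) r)).card := by
      have : 1 < (P.filter (fun r => On (sl q0, p.2 - sl q0 * p.1) r)).card :=
        one_lt_card.2 ⟨p, hpm, q0, hqm, fun h0 => hq0'.2.1 h0.symm⟩
      omega
    have h6 := H _ hcard
    rw [← add_sum_erase _ _ hpm, ← e] at h6
    rw [← neg_eq_of_add_eq_zero_right h6]
    exact neg_self_two h2 _
  rw [h1, sum_congr rfl h3, sum_const]
  exact nsmul_two h2 _ _

/-- the label sum of the points above the line `L` -/
noncomputable def TT (P : Finset (ℝ × ℝ)) (h : ℝ × ℝ → V) (L : ℝ × ℝ) : V :=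
  ∑ q ∈ P.filter (fun q => L.1 * q.1 + L.2 < q.2), h q

/-- the label sum on the line `L`, to the right of `p` -/
noncomputable def ff (P : Finset (ℝ × ℝ)) (h : ℝ × ℝ → V) (L p : ℝ × ℝ) : V :=
  ∑ q ∈ (P.filter (fun r => On L r)).filter (fun q => p.1 < q.1), h q

lemma key (h2 : ∀ v : V, v + v = 0)
    (hx : ∀ p ∈ P, ∀ q ∈ P, p.1 = q.1 → p = q)
    (H : ∀ L : ℝ × ℝ, 2 ≤ (P.filter (fun r => On L r)).card → ∑ r ∈ P.filter (fun r => On L r), h r = 0)
    {p L : ℝ × ℝ} (hp : p ∈ P) (hL : On L p) :
    cc P h p = TT P h L + ff P h L p ∨ cc P h p = TT P h L + ff P h L p + h p := by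
  -- right = right-above + right-on + right-below
  have e1 : cc P h p = ∑ q ∈ P.filter (fun q => p.1 < q.1 ∧ L.1 * q.1 + L.2 < q.2), h q +
      ff P h L p + ∑ q ∈ P.filter (fun q => p.1 < q.1 ∧ q.2 < L.1 * q.1 + L.2), h q := by
    rw [cc, ff, ← sum_filter_add_sum_filter_not _ (fun q : ℝ × ℝ => L.1 * q.1 + L.2 < q.2), add_assoc]
    congr 1
    · rw [filter_filter]
    · rw [← sum_filter_add_sum_filter_not (filter (fun q : ℝ × ℝ => ¬ L.1 * q.1 + L.2 < q.2) _)
        (fun q : ℝ × ℝ => q.2 = L.1 * q.1 + L.2)]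
      congr 1
      · apply sum_congr _ (fun _ _ => rfl)
        ext q
        simp only [mem_filter]
        simp only [On]
        constructor
        · rintro ⟨⟨⟨a, b⟩, -⟩, d⟩; exact ⟨⟨a, d⟩, b⟩
        · rintro ⟨⟨a, d⟩, b⟩; exact ⟨⟨⟨a, b⟩, by linarith⟩, d⟩
      · apply sum_congr _ (fun _ _ => rfl)
        ext q
        simp only [mem_filter]
        constructor
        · rintro ⟨⟨⟨a, b⟩, d⟩, e⟩; exact ⟨a, b, lt_of_le_of_ne (not_lt.1 d) e⟩
        · rintro ⟨a, b, d⟩; exact ⟨⟨⟨a, b⟩, not_lt.2 d.le⟩, d.ne⟩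
  have e2 : TT P h L = ∑ q ∈ P.filter (fun q => p.1 < q.1 ∧ L.1 * q.1 + L.2 < q.2), h q +
      ∑ q ∈ P.filter (fun q => q.1 < p.1 ∧ L.1 * q.1 + L.2 < q.2), h q := by
    rw [TT, ← sum_filter_add_sum_filter_not _ (fun q : ℝ × ℝ => p.1 < q.1)]
    congr 1
    · rw [filter_filter]
      apply sum_congr _ (fun _ _ => rfl)
      ext q
      simp only [mem_filter]
      tauto
    · rw [filter_filter]
      apply sum_congr _ (fun _ _ => rfl)
      ext q
      simp only [mem_filter]
      constructor
      · rintro ⟨a, b, d⟩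
        refine ⟨a, lt_of_le_of_ne (not_lt.1 d) ?_, b⟩
        intro h0
        have := hx q a p hp h0
        subst this
        rw [On] at hL
        linarith
      · rintro ⟨a, b, d⟩
        exact ⟨a, d, not_lt.2 b.le⟩
  have e3 : ∑ q ∈ P.filter (fun q => q ≠ p ∧ (q.2 - p.2) / (q.1 - p.1) < L.1), h q =
      ∑ q ∈ P.filter (fun q => p.1 < q.1 ∧ q.2 < L.1 * q.1 + L.2), h q +
      ∑ q ∈ P.filter (fun q => q.1 < p.1 ∧ L.1 * q.1 + L.2 < q.2), h q := by
    rw [← sum_union]
    · apply sum_congr _ (fun _ _ => rfl)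
      ext q
      rw [On] at hL
      simp only [mem_filter, mem_union]
      constructor
      · rintro ⟨a, b, d⟩
        rcases lt_trichotomy q.1 p.1 with h5 | h5 | h5
        · right
          refine ⟨a, h5, ?_⟩
          rw [div_lt_iff_of_neg (by linarith)] at d
          nlinarith
        · exact absurd (hx q a p hp h5) b
        · left
          refine ⟨a, h5, ?_⟩
          rw [div_lt_iff₀ (by linarith)] at d
          nlinarith
      · rintro (⟨a, b, d⟩ | ⟨a, b, d⟩)
        · refine ⟨a, ?_, ?_⟩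
          · rintro rfl; exact lt_irrefl _ b
          · rw [div_lt_iff₀ (by linarith)]
            nlinarith
        · refine ⟨a, ?_, ?_⟩
          · rintro rfl; exact lt_irrefl _ b
          · rw [div_lt_iff_of_neg (by linarith)]
            nlinarith
    · rw [disjoint_left]
      intro q hq hq'
      have := (mem_filter.1 hq).2.1
      have := (mem_filter.1 hq').2.1
      linarith
  have e4 := low_sum h2 hx H hp L.1
  rw [e3] at e4
  set a := ∑ q ∈ P.filter (fun q => p.1 < q.1 ∧ L.1 * q.1 + L.2 < q.2), h q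
  set b := ∑ q ∈ P.filter (fun q => p.1 < q.1 ∧ q.2 < L.1 * q.1 + L.2), h q
  set d := ∑ q ∈ P.filter (fun q => q.1 < p.1 ∧ L.1 * q.1 + L.2 < q.2), h q
  have e5 : b = d + (b + d) := by
    have := h2 d
    calc b = b + (d + d) := by rw [this, add_zero]
      _ = _ := by abel
  rw [e1, e2]
  rcases e4 with e4 | e4
  · left
    rw [e4, add_zero] at e5
    rw [e5]; abel
  · right
    rw [e4] at e5
    rw [e5]; abel

/-- every connecting line meets `AA P h x` in an even number of points -/
lemma even_inter (h2 : ∀ v : V, v + v = 0)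
    (hx : ∀ p ∈ P, ∀ q ∈ P, p.1 = q.1 → p = q)
    (H : ∀ L : ℝ × ℝ, 2 ≤ (P.filter (fun r => On L r)).card → ∑ r ∈ P.filter (fun r => On L r), h r = 0)
    (x : V) {L : ℝ × ℝ} (hL : 2 ≤ (P.filter (fun r => On L r)).card) :
    Even ((AA P h x).filter (fun r => On L r)).card := by
  set ℓ := P.filter (fun r => On L r) with hℓ
  have hinj : Set.InjOn (fun p : ℝ × ℝ => p.1) ℓ := by
    intro p hp q hq hpq
    exact hx p (mem_filter.1 (mem_coe.1 hp)).1 q (mem_filter.1 (mem_coe.1 hq)).1 hpq
  have ht := tele (fun p : ℝ × ℝ => p.1) h (x + TT P h L) ℓ hinj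
  rw [H L hL] at ht
  have ht' : (ℓ.filter (fun p => ff P h L p = x + TT P h L)).card =
      (ℓ.filter (fun p => ff P h L p + h p = x + TT P h L)).card := by
    have e : ∀ p ∈ ℓ, ∑ q ∈ ℓ.filter (fun q => p.1 ≤ q.1), h q = ff P h L p + h p := by
      intro p hp
      have : ℓ.filter (fun q => p.1 ≤ q.1) = insert p (ℓ.filter (fun q => p.1 < q.1)) := by
        ext q
        simp only [mem_filter, mem_insert]
        constructor
        · rintro ⟨a, b⟩
          rcases eq_or_lt_of_le b with h5 | h5
          · left; exact (hinj (mem_coe.2 hp) (mem_coe.2 a) h5).symm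
          · right; exact ⟨a, h5⟩
        · rintro (rfl | ⟨a, b⟩)
          · exact ⟨hp, le_rfl⟩
          · exact ⟨a, b.le⟩
      rw [this, sum_insert (by simp), add_comm]
      rfl
    have e' : ℓ.filter (fun p => ∑ q ∈ ℓ.filter (fun q => p.1 ≤ q.1), h q = x + TT P h L) =
        ℓ.filter (fun p => ff P h L p + h p = x + TT P h L) := by
      apply filter_congr
      intro p hp
      rw [e p hp]
    have e'' : ℓ.filter (fun p => ∑ q ∈ ℓ.filter (fun q => p.1 < q.1), h q = x + TT P h L) =
        ℓ.filter (fun p => ff P h L p = x + TT P h L) := rfl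
    rw [e', e''] at ht
    omega
  have hz : (ℓ.filter (fun p => h p = 0 ∧ ff P h L p = x + TT P h L)).card =
      (ℓ.filter (fun p => h p = 0 ∧ ff P h L p + h p = x + TT P h L)).card := by
    congr 1
    apply filter_congr
    intro p _
    constructor
    · rintro ⟨a, b⟩; exact ⟨a, by rw [a, add_zero]; exact b⟩
    · rintro ⟨a, b⟩; exact ⟨a, by rw [a, add_zero] at b; exact b⟩
  have hsp : ∀ g : ℝ × ℝ → V, (ℓ.filter (fun p => g p = x + TT P h L)).card =
      (ℓ.filter (fun p => h p = 0 ∧ g p = x + TT P h L)).card +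
      (ℓ.filter (fun p => h p ≠ 0 ∧ g p = x + TT P h L)).card := by
    intro g
    rw [← card_filter_add_card_filter_not (s := ℓ.filter (fun p => g p = x + TT P h L))
      (fun p => h p = 0)]
    congr 2
    · ext p; simp only [mem_filter]; tauto
    · ext p; simp only [mem_filter]; tauto
  have hA : (AA P h x).filter (fun r => On L r) =
      (ℓ.filter (fun p => h p ≠ 0 ∧ ff P h L p = x + TT P h L)) ∪
      (ℓ.filter (fun p => h p ≠ 0 ∧ ff P h L p + h p = x + TT P h L)) := by
    ext p
    simp only [AA, mem_filter, mem_union, hℓ]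
    have hcancel : ∀ u : V, (TT P h L + u = x ↔ u = x + TT P h L) := by
      intro u
      have := h2 (TT P h L)
      constructor
      · rintro rfl
        calc u = u + (TT P h L + TT P h L) := by rw [this, add_zero]
          _ = _ := by abel
      · rintro rfl
        calc TT P h L + (x + TT P h L) = x + (TT P h L + TT P h L) := by abel
          _ = x := by rw [this, add_zero]
    constructor
    · rintro ⟨⟨hp, hne, hc⟩, hon⟩
      have hk := key h2 hx H hp hon
      have hhp := h2 (h p)
      rcases hk with hk | hk <;> rcases hc with hc | hc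
      · left; exact ⟨⟨hp, hon⟩, hne, (hcancel _).1 (by rw [hc, hk])⟩
      · right; refine ⟨⟨hp, hon⟩, hne, (hcancel _).1 ?_⟩
        rw [hc, hk, add_assoc]
      · right; refine ⟨⟨hp, hon⟩, hne, (hcancel _).1 ?_⟩
        rw [hc, hk, add_assoc]
      · left; refine ⟨⟨hp, hon⟩, hne, (hcancel _).1 ?_⟩
        rw [hc, hk, add_assoc, hhp, add_zero]
    · rintro (⟨⟨hp, hon⟩, hne, hc⟩ | ⟨⟨hp, hon⟩, hne, hc⟩)
      · have hk := key h2 hx H hp hon
        have hhp := h2 (h p)
        have hc' := (hcancel _).2 hc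
        refine ⟨⟨hp, hne, ?_⟩, hon⟩
        rcases hk with hk | hk
        · left; rw [hk, hc']
        · right; rw [hk, hc', add_assoc, hhp, add_zero]
      · have hk := key h2 hx H hp hon
        have hhp := h2 (h p)
        have hc' := (hcancel _).2 hc
        refine ⟨⟨hp, hne, ?_⟩, hon⟩
        rcases hk with hk | hk
        · right; rw [hk, add_assoc, hc']
        · left; rw [hk, add_assoc, hc']
  have hdisj : Disjoint (ℓ.filter (fun p => h p ≠ 0 ∧ ff P h L p = x + TT P h L))
      (ℓ.filter (fun p => h p ≠ 0 ∧ ff P h L p + h p = x + TT P h L)) := by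
    rw [disjoint_left]
    intro p hp hp'
    have h5 := (mem_filter.1 hp).2
    have h6 := (mem_filter.1 hp').2
    apply h5.1
    have h7 := h6.2
    rw [h5.2] at h7
    exact left_eq_add.1 h7.symm
  rw [hA, card_union_of_disjoint hdisj]
  have h5 := hsp (fun p => ff P h L p)
  have h6 := hsp (fun p => ff P h L p + h p)
  refine ⟨(ℓ.filter (fun p => h p ≠ 0 ∧ ff P h L p = x + TT P h L)).card, ?_⟩
  omega

end Pool.Agent.R100.LS
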