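import Pool.Agent.R100.LS.ST

set_option autoImplicit false

/-!
# The line-switching game: the counting lemma (project LS, helper100)
-/

namespace Pool.Agent.R100.LS

open Finset
open scoped Classical

/-- the line through two points -/
noncomputable def lnn (p q : ℝ × ℝ) : ℝ × ℝ :=
  ((q.2 - p.2) / (q.1 - p.1), p.2 - (q.2 - p.2) / (q.1 - p.1) * p.1)

lemma on_lnn_left (p q : ℝ × ℝ) : On (lnn p q) p := by
  simp only [On, lnn]; ring

lemma on_lnn_right {p q : ℝ × ℝ} (h : p.1 ≠ q.1) : On (lnn p q) q := by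
  have hd : q.1 - p.1 ≠ 0 := fun h0 => h (by linarith)
  simp only [On, lnn]
  field_simp
  ring

/-- the connecting lines -/
noncomputable def LL (A : Finset (ℝ × ℝ)) : Finset (ℝ × ℝ) := A.offDiag.image (fun x => lnn x.1 x.2)

section

variable {A Z : Finset (ℝ × ℝ)} (hx : ∀ p ∈ A ∪ Z, ∀ q ∈ A ∪ Z, p.1 = q.1 → p = q)

include hx

lemma xne {p q : ℝ × ℝ} (hp : p ∈ A ∪ Z) (hq : q ∈ A ∪ Z) (hne : p ≠ q) : p.1 ≠ q.1 :=
  fun h0 => hne (hx p hp q hq h0)

lemma mem_LL {L q q' : ℝ × ℝ} (hq : q ∈ A) (hq' : q' ∈ A) (hne : q ≠ q') (h1 : On L q)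
    (h2 : On L q') : L ∈ LL A := by
  have h3 := xne hx (mem_union_left _ hq) (mem_union_left _ hq') hne
  have : lnn q q' = L := on_unique h3 (on_lnn_left _ _) (on_lnn_right h3) h1 h2
  exact mem_image.2 ⟨(q, q'), mem_offDiag.2 ⟨hq, hq', hne⟩, this⟩

lemma two_le_kk {L : ℝ × ℝ} (hL : L ∈ LL A) : 2 ≤ kk A L := by
  obtain ⟨⟨q, q'⟩, h1, rfl⟩ := mem_image.1 hL
  rw [mem_offDiag] at h1
  have h3 := xne hx (mem_union_left _ h1.1) (mem_union_left _ h1.2.1) h1.2.2
  have : 1 < kk A (lnn q q') := one_lt_card.2 ⟨q, mem_filter.2 ⟨h1.1, on_lnn_left _ _⟩, q',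
    mem_filter.2 ⟨h1.2.1, on_lnn_right h3⟩, h1.2.2⟩
  exact this

omit hx in
lemma card_LL : (LL A).card ≤ A.card ^ 2 := by
  refine card_image_le.trans ?_
  rw [offDiag_card, sq]
  exact Nat.sub_le _ _

variable (hd : Disjoint A Z)
  (hnc : ∀ L : ℝ × ℝ, ∃ q ∈ A, ¬ On L q)
  (hs : ∀ p ∈ Z, ∀ q ∈ A, ∃ q' ∈ A, q' ≠ q ∧ ∃ L, On L p ∧ On L q ∧ On L q')

include hd hs

lemma ln_mem {p q : ℝ × ℝ} (hp : p ∈ Z) (hq : q ∈ A) : lnn p q ∈ LL A := by
  obtain ⟨q', hq', hne, L, h1, h2, h3⟩ := hs p hp q hq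
  have hpq : p ≠ q := fun h0 => disjoint_left.1 hd hq (h0 ▸ hp)
  have h4 := xne hx (mem_union_right _ hp) (mem_union_left _ hq) hpq
  have : lnn p q = L := on_unique h4 (on_lnn_left _ _) (on_lnn_right h4) h1 h2
  rw [this]
  exact mem_LL hx hq hq' hne.symm h2 h3

lemma sum_kk {p : ℝ × ℝ} (hp : p ∈ Z) :
    ∑ L ∈ (LL A).filter (fun L => On L p), kk A L = A.card := by
  rw [card_eq_sum_card_fiberwise (f := fun q => lnn p q) (s := A)
    (t := (LL A).filter (fun L => On L p))]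
  · refine sum_congr rfl fun L hL => ?_
    rw [mem_filter] at hL
    rw [kk]
    congr 1
    apply filter_congr
    intro q hq
    have hpq : p ≠ q := fun h0 => disjoint_left.1 hd hq (h0 ▸ hp)
    have h4 := xne hx (mem_union_right _ hp) (mem_union_left _ hq) hpq
    constructor
    · intro h5
      exact on_unique h4 (on_lnn_left _ _) (on_lnn_right h4) hL.2 h5
    · rintro rfl
      exact on_lnn_right h4
  · intro q hq
    rw [mem_coe, mem_filter]
    exact ⟨ln_mem hx hd hs hp (mem_coe.1 hq), on_lnn_left _ _⟩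

include hnc

lemma two_lines {p : ℝ × ℝ} (hp : p ∈ Z) :
    ∃ L ∈ LL A, ∃ L' ∈ LL A, L ≠ L' ∧ On L p ∧ On L' p := by
  obtain ⟨q0, hq0, -⟩ := hnc 0
  obtain ⟨q1, hq1, hn⟩ := hnc (lnn p q0)
  refine ⟨lnn p q0, ln_mem hx hd hs hp hq0, lnn p q1, ln_mem hx hd hs hp hq1, ?_,
    on_lnn_left _ _, on_lnn_left _ _⟩
  intro h0
  apply hn
  rw [h0]
  have hpq : p ≠ q1 := fun h0 => disjoint_left.1 hd hq1 (h0 ▸ hp)
  exact on_lnn_right (xne hx (mem_union_right _ hp) (mem_union_left _ hq1) hpq)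

lemma small_case : Z.card ≤ A.card ^ 4 := by
  have h1 : ∀ p : ℝ × ℝ, ∃ y : (ℝ × ℝ) × (ℝ × ℝ), p ∈ Z → y.1 ∈ LL A ∧ y.2 ∈ LL A ∧ y.1 ≠ y.2 ∧
      On y.1 p ∧ On y.2 p := by
    intro p
    by_cases hp : p ∈ Z
    · obtain ⟨L, hL, L', hL', hne, h1, h2⟩ := two_lines hx hd hnc hs hp
      exact ⟨(L, L'), fun _ => ⟨hL, hL', hne, h1, h2⟩⟩
    · exact ⟨0, fun h => absurd h hp⟩
  choose g hg using h1
  have h2 : Z.card ≤ (LL A ×ˢ LL A).card := by
    apply card_le_card_of_injOn g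
    · intro p hp
      have := hg p (mem_coe.1 hp)
      rw [mem_coe, mem_product]
      exact ⟨this.1, this.2.1⟩
    · intro p hp p' hp' hpp
      by_contra hne
      have h3 := hg p (mem_coe.1 hp)
      have h4 := hg p' (mem_coe.1 hp')
      rw [← hpp] at h4
      have h5 := xne hx (mem_union_right _ (mem_coe.1 hp)) (mem_union_right _ (mem_coe.1 hp')) hne
      exact h3.2.2.1 (on_unique h5 h3.2.2.2.1 h4.2.2.2.1 h3.2.2.2.2 h4.2.2.2.2)
  rw [card_product] at h2
  have h3 := card_LL (A := A)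
  calc Z.card ≤ (LL A).card * (LL A).card := h2
    _ ≤ A.card ^ 2 * A.card ^ 2 := Nat.mul_le_mul h3 h3
    _ = A.card ^ 4 := by ring

omit hd in
lemma line_Z (L : ℝ × ℝ) : (Z.filter (fun p => On L p)).card ≤ A.card := by
  obtain ⟨q0, hq0, hn⟩ := hnc L
  have h1 : ∀ p : ℝ × ℝ, ∃ y : (ℝ × ℝ), p ∈ Z → y ∈ A ∧ y ≠ q0 ∧ ∃ L, On L p ∧ On L q0 ∧ On L y := by
    intro p
    by_cases hp : p ∈ Z
    · obtain ⟨q', hq', hne, L, h1⟩ := hs p hp q0 hq0
      exact ⟨q', fun _ => ⟨hq', hne, L, h1⟩⟩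
    · exact ⟨0, fun h => absurd h hp⟩
  choose g hg using h1
  apply card_le_card_of_injOn g
  · intro p hp
    exact mem_coe.2 (hg p (mem_filter.1 (mem_coe.1 hp)).1).1
  · intro p hp p' hp' hpp
    by_contra hne
    have hpZ := mem_filter.1 (mem_coe.1 hp)
    have hpZ' := mem_filter.1 (mem_coe.1 hp')
    obtain ⟨a1, a2, M, a3, a4, a5⟩ := hg p hpZ.1
    obtain ⟨b1, b2, M', b3, b4, b5⟩ := hg p' hpZ'.1
    rw [← hpp] at b5
    have h5 := xne hx (mem_union_left _ hq0) (mem_union_left _ a1) a2.symm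
    have h6 : M = M' := on_unique h5 a4 a5 b4 b5
    subst h6
    have h7 := xne hx (mem_union_right _ hpZ.1) (mem_union_right _ hpZ'.1) hne
    have h8 : L = M := on_unique h7 hpZ.2 hpZ'.2 a3 b3
    exact hn (h8 ▸ a4)

omit hd in
lemma Z1_card {b : ℕ} (hb : 0 < b) (ha : 4 * b ^ 2 ≤ A.card) :
    (Z.filter (fun p => ∃ L ∈ (LL A).filter (fun L => A.card < b * kk A L), On L p)).card ≤
      4 * b * A.card := by
  set a := A.card with ha'
  set VR := (LL A).filter (fun L => a < b * kk A L) with hVR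
  have h1 : Z.filter (fun p => ∃ L ∈ VR, On L p) ⊆ VR.biUnion (fun L => Z.filter (fun p => On L p)) := by
    intro p hp
    rw [mem_filter] at hp
    obtain ⟨hpZ, L, hL, hLp⟩ := hp
    exact mem_biUnion.2 ⟨L, hL, mem_filter.2 ⟨hpZ, hLp⟩⟩
  have h2 : (VR.biUnion (fun L => Z.filter (fun p => On L p))).card ≤ VR.card * a := by
    refine card_biUnion_le.trans ?_
    rw [← smul_eq_mul, ← sum_const]
    exact sum_le_sum fun L _ => line_Z hx hnc hs L
  set j := a / b with hj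
  have hj1 : a < b * (j + 1) := Nat.lt_mul_div_succ a hb
  have hj2 : 4 * b ≤ j := by
    rw [hj, Nat.le_div_iff_mul_le hb]
    nlinarith
  have hj3 : 2 * A.card ≤ j ^ 2 := by
    rw [← ha']
    nlinarith
  have h3 := Pool.Agent.Helper309.Aff.few_rich (V := A) (Ls := VR)
    (fun p hp q hq => hx p (mem_union_left _ hp) q (mem_union_left _ hq)) hj3 (by omega) (by
      intro L hL
      rw [mem_filter] at hL
      have : j ≤ kk A L := by
        rw [hj]
        exact Nat.div_le_of_le_mul hL.2.le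
      exact this)
  have h4 : VR.card ≤ 4 * b := by
    by_contra hcon
    push Not at hcon
    have h5 : j * (4 * b + 1) ≤ j * VR.card := Nat.mul_le_mul_left _ hcon
    rw [← ha'] at h3
    nlinarith
  calc _ ≤ _ := card_le_card h1
    _ ≤ VR.card * a := h2
    _ ≤ 4 * b * a := Nat.mul_le_mul_right _ h4

omit hnc in
lemma Z2_card {b : ℕ} (hb : (20000 : ℝ) ≤ b) (hA : 0 < A.card) :
    (Z.filter (fun p => 3 * A.card ≤ 4 * ∑ L ∈ ((LL A).filter (fun L => 2 * b ≤ kk A L ∧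
      b * kk A L ≤ A.card)).filter (fun L => On L p), kk A L)).card ≤ A.card := by
  set a := A.card with ha'
  set HV := (LL A).filter (fun L => 2 * b ≤ kk A L ∧ b * kk A L ≤ a) with hHV
  set Z2 := Z.filter (fun p => 3 * a ≤ 4 * ∑ L ∈ HV.filter (fun L => On L p), kk A L) with hZ2
  set N2 := Z2.card with hN2
  set z : ℝ × ℝ → ℕ := fun L => (Z2.filter (fun p => On L p)).card with hz
  have hheavy := heavy_sum (X := A) (Hs := HV) (b := b)
    (fun p hp q hq => hx p (mem_union_left _ hp) q (mem_union_left _ hq)) hb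
    (fun L hL => (mem_filter.1 hL).2.1) (fun L hL => (mem_filter.1 hL).2.2)
  have S1 : 3 * a * N2 ≤ 4 * ∑ L ∈ HV, kk A L * z L := by
    have e1 : ∑ L ∈ HV, kk A L * z L = ∑ p ∈ Z2, ∑ L ∈ HV.filter (fun L => On L p), kk A L := by
      simp only [hz, card_filter, mul_sum, mul_ite, mul_one, mul_zero, sum_filter]
      exact sum_comm
    rw [e1, mul_sum, mul_comm (3 * a), ← smul_eq_mul, ← sum_const]
    exact sum_le_sum fun p hp => (mem_filter.1 hp).2
  have S2 : (∑ L ∈ HV, kk A L * z L) ^ 2 ≤ (∑ L ∈ HV, kk A L ^ 2) * ∑ L ∈ HV, z L ^ 2 :=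
    sum_mul_sq_le_sq_mul_sq _ _ _
  have S3 : ∑ L ∈ HV, z L ^ 2 ≤ N2 ^ 2 + ∑ L ∈ HV, z L := by
    have e1 : ∀ L, z L ^ 2 = ∑ p ∈ Z2, ∑ p' ∈ Z2, if On L p ∧ On L p' then 1 else 0 := by
      intro L
      simp only [hz]
      rw [sq, card_filter, sum_mul_sum]
      refine sum_congr rfl fun p _ => sum_congr rfl fun p' _ => ?_
      by_cases h1 : On L p <;> by_cases h2 : On L p' <;> simp [h1, h2]
    have e2 : ∑ L ∈ HV, z L ^ 2 = ∑ p ∈ Z2, ∑ p' ∈ Z2,
        (HV.filter (fun L => On L p ∧ On L p')).card := by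
      rw [sum_congr rfl (fun L _ => e1 L), sum_comm]
      refine sum_congr rfl fun p _ => ?_
      rw [sum_comm]
      refine sum_congr rfl fun p' _ => ?_
      rw [card_filter]
    have e3 : ∀ p ∈ Z2, ∑ p' ∈ Z2, (HV.filter (fun L => On L p ∧ On L p')).card ≤
        (HV.filter (fun L => On L p)).card + N2 := by
      intro p hp
      rw [← add_sum_erase _ _ hp]
      refine Nat.add_le_add ?_ ?_
      · exact card_le_card (fun L hL => by
          simp only [mem_filter] at hL ⊢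
          exact ⟨hL.1, hL.2.1⟩)
      · calc ∑ p' ∈ Z2.erase p, (HV.filter (fun L => On L p ∧ On L p')).card
            ≤ ∑ p' ∈ Z2.erase p, 1 := by
              refine sum_le_sum fun p' hp' => ?_
              rw [card_le_one]
              intro L hL L' hL'
              simp only [mem_filter] at hL hL'
              have hne := ne_of_mem_erase hp'
              have h5 := xne hx (mem_union_right _ (mem_filter.1 hp).1)
                (mem_union_right _ (mem_filter.1 (mem_of_mem_erase hp')).1) hne.symm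
              exact on_unique h5 hL.2.1 hL.2.2 hL'.2.1 hL'.2.2
          _ = (Z2.erase p).card := by simp
          _ ≤ N2 := card_le_card (erase_subset _ _)
    have e4 : ∑ L ∈ HV, z L = ∑ p ∈ Z2, (HV.filter (fun L => On L p)).card := by
      simp only [hz, card_filter]
      exact sum_comm
    rw [e2, e4]
    calc _ ≤ ∑ p ∈ Z2, ((HV.filter (fun L => On L p)).card + N2) := sum_le_sum e3
      _ = _ := by
        rw [sum_add_distrib, sum_const, smul_eq_mul, ← hN2, sq]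
        ring
  have S4 : ∑ L ∈ HV, z L ≤ N2 * a := by
    have e4 : ∑ L ∈ HV, z L = ∑ p ∈ Z2, (HV.filter (fun L => On L p)).card := by
      simp only [hz, card_filter]
      exact sum_comm
    rw [e4, ← smul_eq_mul, hN2, ← sum_const]
    refine sum_le_sum fun p hp => ?_
    have h1 := sum_kk hx hd hs (mem_filter.1 hp).1
    calc (HV.filter (fun L => On L p)).card = ∑ L ∈ HV.filter (fun L => On L p), 1 := by simp
      _ ≤ ∑ L ∈ HV.filter (fun L => On L p), kk A L := by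
        refine sum_le_sum fun L hL => ?_
        have := two_le_kk hx (mem_filter.1 (mem_filter.1 hL).1).1
        omega
      _ ≤ ∑ L ∈ (LL A).filter (fun L => On L p), kk A L := by
        apply sum_le_sum_of_subset
        intro L hL
        rw [mem_filter] at hL ⊢
        exact ⟨(mem_filter.1 hL.1).1, hL.2⟩
      _ = a := h1
  -- combine
  set X := ∑ L ∈ HV, kk A L * z L
  set Q := ∑ L ∈ HV, kk A L ^ 2
  set R := ∑ L ∈ HV, z L ^ 2
  have hR : R ≤ N2 ^ 2 + N2 * a := by omega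
  by_contra hcon
  push Not at hcon
  have h1 : (3 * a * N2) ^ 2 ≤ (4 * X) ^ 2 := Nat.pow_le_pow_left S1 2
  have h2 : (4 * X) ^ 2 ≤ 16 * (Q * R) := by
    calc (4 * X) ^ 2 = 16 * X ^ 2 := by ring
      _ ≤ 16 * (Q * R) := Nat.mul_le_mul_left _ S2
  have h3 : 16 * (Q * R) ≤ 4 * (a ^ 2 * (N2 ^ 2 + N2 * a)) := by
    calc 16 * (Q * R) = 4 * ((4 * Q) * R) := by ring
      _ ≤ 4 * (a ^ 2 * (N2 ^ 2 + N2 * a)) :=
        Nat.mul_le_mul_left _ (Nat.mul_le_mul hheavy hR)
  have h4 : a ^ 2 * (9 * N2 ^ 2) ≤ a ^ 2 * (4 * (N2 ^ 2 + N2 * a)) := by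
    calc a ^ 2 * (9 * N2 ^ 2) = (3 * a * N2) ^ 2 := by ring
      _ ≤ 4 * (a ^ 2 * (N2 ^ 2 + N2 * a)) := h1.trans (h2.trans h3)
      _ = _ := by ring
  have h5 : 9 * N2 ^ 2 ≤ 4 * (N2 ^ 2 + N2 * a) := Nat.le_of_mul_le_mul_left h4 (by positivity)
  have h6 : a < N2 := hcon
  nlinarith

omit hnc in
lemma Z3_card {b : ℕ} (hb : 0 < b) (ha : 16 * b ≤ A.card) :
    (Z.filter (fun p => (∀ L ∈ LL A, On L p → b * kk A L ≤ A.card) ∧
      ¬ 3 * A.card ≤ 4 * ∑ L ∈ ((LL A).filter (fun L => 2 * b ≤ kk A L ∧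
      b * kk A L ≤ A.card)).filter (fun L => On L p), kk A L)).card ≤
      576 * ((16 * b) ^ 3 + 16 * b) * A.card := by
  set a := A.card with ha'
  set HV := (LL A).filter (fun L => 2 * b ≤ kk A L ∧ b * kk A L ≤ a) with hHV
  set Z3 := Z.filter (fun p => (∀ L ∈ LL A, On L p → b * kk A L ≤ a) ∧
      ¬ 3 * a ≤ 4 * ∑ L ∈ HV.filter (fun L => On L p), kk A L) with hZ3
  set r := a / (8 * b) with hr
  have hr2 : 2 ≤ r := by
    rw [hr, Nat.le_div_iff_mul_le (by omega)]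
    omega
  have hr3 : a ≤ 16 * b * r := by
    have : a < 8 * b * (r + 1) := Nat.lt_mul_div_succ a (by omega)
    nlinarith
  have hpoor : ∀ p ∈ Z3, r ≤ ((LL A).filter (fun L => On L p)).card := by
    intro p hp
    rw [mem_filter] at hp
    obtain ⟨hpZ, hp1, hp2⟩ := hp
    have h1 := sum_kk hx hd hs hpZ
    rw [← sum_filter_add_sum_filter_not _ (fun L => kk A L < 2 * b)] at h1
    have h2 : ∑ L ∈ ((LL A).filter (fun L => On L p)).filter (fun L => ¬ kk A L < 2 * b), kk A L ≤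
        ∑ L ∈ HV.filter (fun L => On L p), kk A L := by
      apply sum_le_sum_of_subset
      intro L hL
      simp only [mem_filter, hHV] at hL ⊢
      exact ⟨⟨hL.1.1, not_lt.1 hL.2, hp1 L hL.1.1 hL.1.2⟩, hL.1.2⟩
    have h3 : ∑ L ∈ ((LL A).filter (fun L => On L p)).filter (fun L => kk A L < 2 * b), kk A L ≤
        ((LL A).filter (fun L => On L p)).card * (2 * b) := by
      calc _ ≤ ∑ _L ∈ ((LL A).filter (fun L => On L p)).filter (fun L => kk A L < 2 * b), 2 * b :=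
            sum_le_sum fun L hL => (mem_filter.1 hL).2.le
        _ = (((LL A).filter (fun L => On L p)).filter (fun L => kk A L < 2 * b)).card * (2 * b) := by
            rw [sum_const, smul_eq_mul]
        _ ≤ _ := Nat.mul_le_mul_right _ (card_le_card (filter_subset _ _))
    rw [hr]
    apply Nat.div_le_of_le_mul
    have h4 : a < 4 * (((LL A).filter (fun L => On L p)).card * (2 * b)) := by omega
    nlinarith
  have hi1 : Set.InjOn (fun L : ℝ × ℝ => ((L.1, -L.2) : ℝ × ℝ)) (LL A) := by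
    intro L _ L' _ h0
    have h1 := congrArg Prod.fst h0
    have h2 := congrArg Prod.snd h0
    simp only at h1 h2
    exact Prod.ext h1 (neg_injective h2)
  have hi2 : Set.InjOn (fun L : ℝ × ℝ => ((L.1, -L.2) : ℝ × ℝ)) Z3 := by
    intro L _ L' _ h0
    have h1 := congrArg Prod.fst h0
    have h2 := congrArg Prod.snd h0
    simp only at h1 h2
    exact Prod.ext h1 (neg_injective h2)
  have key := stg' ((LL A).image (fun L : ℝ × ℝ => ((L.1, -L.2) : ℝ × ℝ)))
    (Z3.image (fun L : ℝ × ℝ => ((L.1, -L.2) : ℝ × ℝ))) r hr2 (by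
      intro l hl
      obtain ⟨p, hp, rfl⟩ := mem_image.1 hl
      refine (hpoor p hp).trans ?_
      apply card_le_card_of_injOn (fun L : ℝ × ℝ => ((L.1, -L.2) : ℝ × ℝ))
      · intro L hL
        have hL' := mem_filter.1 (mem_coe.1 hL)
        refine mem_coe.2 (mem_filter.2 ⟨mem_image_of_mem _ hL'.1, ?_⟩)
        have h5 := hL'.2
        simp only [On] at h5
        show -L.2 = p.1 * L.1 + -p.2
        linarith
      · exact hi1.mono (by
          intro L hL
          exact mem_coe.2 (mem_filter.1 (mem_coe.1 hL)).1))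
  rw [card_image_of_injOn hi1, card_image_of_injOn hi2] at key
  have hLL := card_LL (A := A)
  rw [← ha'] at hLL
  have h1 : r ^ 3 * Z3.card ≤ 576 * ((a ^ 2) ^ 2 + r ^ 2 * a ^ 2) := by
    refine key.trans (Nat.mul_le_mul_left _ (Nat.add_le_add ?_ ?_))
    · exact Nat.pow_le_pow_left hLL 2
    · exact Nat.mul_le_mul_left _ hLL
  have h2 : (a ^ 2) ^ 2 ≤ (16 * b) ^ 3 * a * r ^ 3 := by
    calc (a ^ 2) ^ 2 = a * a ^ 3 := by ring
      _ ≤ a * (16 * b * r) ^ 3 := Nat.mul_le_mul_left _ (Nat.pow_le_pow_left hr3 3)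
      _ = _ := by ring
  have h3 : r ^ 2 * a ^ 2 ≤ 16 * b * a * r ^ 3 := by
    calc r ^ 2 * a ^ 2 = r ^ 2 * a * a := by ring
      _ ≤ r ^ 2 * a * (16 * b * r) := Nat.mul_le_mul_left _ hr3
      _ = _ := by ring
  have h4 : r ^ 3 * Z3.card ≤ r ^ 3 * (576 * ((16 * b) ^ 3 + 16 * b) * a) := by
    calc r ^ 3 * Z3.card ≤ 576 * ((a ^ 2) ^ 2 + r ^ 2 * a ^ 2) := h1
      _ ≤ 576 * ((16 * b) ^ 3 * a * r ^ 3 + 16 * b * a * r ^ 3) :=
        Nat.mul_le_mul_left _ (Nat.add_le_add h2 h3)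
      _ = _ := by ring
  exact Nat.le_of_mul_le_mul_left h4 (by positivity)

end

theorem count : S_Count := by
  obtain ⟨b, hbdef⟩ : ∃ b : ℕ, b = 20000 := ⟨_, rfl⟩
  refine ⟨(4 * b ^ 2) ^ 3 + (4 * b + 1 + 576 * ((16 * b) ^ 3 + 16 * b)), ?_⟩
  intro A Z hx hd hnc hs
  have hbR : (20000 : ℝ) ≤ (b : ℕ) := by rw [hbdef]; norm_num
  have hb0 : 0 < b := by omega
  have hA : 0 < A.card := by
    obtain ⟨q, hq, -⟩ := hnc 0
    exact card_pos.2 ⟨q, hq⟩
  rcases lt_or_ge A.card (4 * b ^ 2) with hsm | hlg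
  · have h1 := small_case hx hd hnc hs
    calc Z.card ≤ A.card ^ 4 := h1
      _ = A.card ^ 3 * A.card := by ring
      _ ≤ (4 * b ^ 2) ^ 3 * A.card := Nat.mul_le_mul_right _ (Nat.pow_le_pow_left hsm.le 3)
      _ ≤ _ := Nat.mul_le_mul_right _ (Nat.le_add_right _ _)
  · have h1 := Z1_card (Z := Z) hx hnc hs hb0 hlg
    have h2 := Z2_card hx hd hs hbR hA
    have hlg' : 16 * b ≤ A.card := by
      refine le_trans ?_ hlg
      rw [hbdef]; norm_num
    have h3 := Z3_card hx hd hs hb0 hlg'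
    have hcov : Z ⊆ (Z.filter (fun p => ∃ L ∈ (LL A).filter (fun L => A.card < b * kk A L), On L p)) ∪
        ((Z.filter (fun p => 3 * A.card ≤ 4 * ∑ L ∈ ((LL A).filter (fun L => 2 * b ≤ kk A L ∧
          b * kk A L ≤ A.card)).filter (fun L => On L p), kk A L)) ∪
        (Z.filter (fun p => (∀ L ∈ LL A, On L p → b * kk A L ≤ A.card) ∧
          ¬ 3 * A.card ≤ 4 * ∑ L ∈ ((LL A).filter (fun L => 2 * b ≤ kk A L ∧
          b * kk A L ≤ A.card)).filter (fun L => On L p), kk A L))) := by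
      intro p hp
      rw [mem_union, mem_union, mem_filter, mem_filter, mem_filter]
      by_cases c1 : ∃ L ∈ (LL A).filter (fun L => A.card < b * kk A L), On L p
      · exact Or.inl ⟨hp, c1⟩
      by_cases c2 : 3 * A.card ≤ 4 * ∑ L ∈ ((LL A).filter (fun L => 2 * b ≤ kk A L ∧
          b * kk A L ≤ A.card)).filter (fun L => On L p), kk A L
      · exact Or.inr (Or.inl ⟨hp, c2⟩)
      refine Or.inr (Or.inr ⟨hp, ?_, c2⟩)
      intro L hL hLp
      by_contra c3
      exact c1 ⟨L, mem_filter.2 ⟨hL, not_le.1 c3⟩, hLp⟩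
    have h4 := (card_le_card hcov).trans ((card_union_le _ _).trans
      (Nat.add_le_add_left (card_union_le _ _) _))
    refine h4.trans ((Nat.add_le_add h1 (Nat.add_le_add h2 h3)).trans ?_)
    calc 4 * b * A.card + (A.card + 576 * ((16 * b) ^ 3 + 16 * b) * A.card)
        = (4 * b + 1 + 576 * ((16 * b) ^ 3 + 16 * b)) * A.card := by ring
      _ ≤ _ := Nat.mul_le_mul_right _ (Nat.le_add_left _ _)

end Pool.Agent.R100.LS
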