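import Pool.Agent.R100.LS.Alg

set_option autoImplicit false

/-!
# The line-switching game: the dimension bound (project LS, helper100)
-/

namespace Pool.Agent.R100.LS

open Finset
open scoped Classical

variable {V : Type*} [AddCommGroup V] {P : Finset (ℝ × ℝ)} {h : ℝ × ℝ → V}

lemma on_unique {L L' p q : ℝ × ℝ} (hpq : p.1 ≠ q.1) (h1 : On L p) (h2 : On L q) (h3 : On L' p)
    (h4 : On L' q) : L = L' := by
  unfold On at *
  have e : (L.1 - L'.1) * (p.1 - q.1) = 0 := by linear_combination h3 - h1 + h2 - h4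
  have e1 : L.1 = L'.1 := by
    rcases mul_eq_zero.1 e with e | e
    · linarith
    · exact absurd (by linarith) hpq
  have e2 : L.2 = L'.2 := by
    have := h1.symm.trans h3
    rw [e1] at this
    linarith
  exact Prod.ext e1 e2

lemma exists_on {p q : ℝ × ℝ} (hpq : p.1 ≠ q.1) : ∃ L, On L p ∧ On L q := by
  have hd : q.1 - p.1 ≠ 0 := fun h => hpq (by linarith)
  refine ⟨((q.2 - p.2) / (q.1 - p.1), p.2 - (q.2 - p.2) / (q.1 - p.1) * p.1), ?_, ?_⟩
  · unfold On; ring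
  · unfold On
    field_simp
    ring

lemma second (h2 : ∀ v : V, v + v = 0)
    (hx : ∀ p ∈ P, ∀ q ∈ P, p.1 = q.1 → p = q)
    (H : ∀ L : ℝ × ℝ, 2 ≤ (P.filter (fun r => On L r)).card → ∑ r ∈ P.filter (fun r => On L r), h r = 0)
    (x : V) {p q : ℝ × ℝ} (hp : p ∈ P) (hne : p ≠ q) (hq : q ∈ AA P h x) (hpn : p ∉ AA P h x) :
    ∃ q' ∈ AA P h x, q' ≠ q ∧ ∃ L, On L p ∧ On L q ∧ On L q' := by
  have hqP : q ∈ P := (mem_filter.1 hq).1
  obtain ⟨L, hLp, hLq⟩ := exists_on (fun h0 => hne (hx p hp q hqP h0))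
  have hcard : 2 ≤ (P.filter (fun r => On L r)).card := by
    have : 1 < (P.filter (fun r => On L r)).card :=
      one_lt_card.2 ⟨p, mem_filter.2 ⟨hp, hLp⟩, q, mem_filter.2 ⟨hqP, hLq⟩, hne⟩
    omega
  have he := even_inter h2 hx H x hcard
  have hmem : q ∈ (AA P h x).filter (fun r => On L r) := mem_filter.2 ⟨hq, hLq⟩
  have hpos : 0 < ((AA P h x).filter (fun r => On L r)).card := card_pos.2 ⟨q, hmem⟩
  have h1 : 1 < ((AA P h x).filter (fun r => On L r)).card := by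
    obtain ⟨k, hk⟩ := he
    omega
  obtain ⟨q', hq', hne'⟩ := exists_mem_ne h1 q
  rw [mem_filter] at hq'
  exact ⟨q', hq'.1, hne', L, hLp, hLq, hq'.2⟩

lemma noncol (h2 : ∀ v : V, v + v = 0)
    (hx : ∀ p ∈ P, ∀ q ∈ P, p.1 = q.1 → p = q)
    (H : ∀ L : ℝ × ℝ, 2 ≤ (P.filter (fun r => On L r)).card → ∑ r ∈ P.filter (fun r => On L r), h r = 0)
    (hP : ∀ L : ℝ × ℝ, ∃ r ∈ P, ¬ On L r)
    (x : V) (hne : (AA P h x).Nonempty) (L : ℝ × ℝ) : ∃ q ∈ AA P h x, ¬ On L q := by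
  by_contra hcon
  push Not at hcon
  obtain ⟨q, hq⟩ := hne
  obtain ⟨r, hr, hrL⟩ := hP L
  have hrn : r ∉ AA P h x := fun h0 => hrL (hcon r h0)
  have hrq : r ≠ q := fun h0 => hrn (h0 ▸ hq)
  obtain ⟨q', hq', hne', L', hL'r, hL'q, hL'q'⟩ := second h2 hx H x hr hrq hq hrn
  have : L' = L := on_unique (fun h0 => hne' (hx q' (mem_filter.1 hq').1 q (mem_filter.1 hq).1 h0))
    hL'q' hL'q (hcon q' hq') (hcon q hq)
  exact hrL (this ▸ hL'r)

/-- the values -/
noncomputable def XX (P : Finset (ℝ × ℝ)) (h : ℝ × ℝ → V) : Finset V :=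
  (P.filter (fun p => h p ≠ 0)).image (fun p => cc P h p) ∪
  (P.filter (fun p => h p ≠ 0)).image (fun p => cc P h p + h p)

lemma XX_nonempty {x : V} (hx : x ∈ XX P h) : (AA P h x).Nonempty := by
  rw [XX, mem_union, mem_image, mem_image] at hx
  rcases hx with ⟨p, hp, rfl⟩ | ⟨p, hp, rfl⟩
  · rw [mem_filter] at hp
    exact ⟨p, mem_filter.2 ⟨hp.1, hp.2, Or.inl rfl⟩⟩
  · rw [mem_filter] at hp
    exact ⟨p, mem_filter.2 ⟨hp.1, hp.2, Or.inr rfl⟩⟩

lemma sum_AA : ∑ x ∈ XX P h, (AA P h x).card ≤ 2 * P.card := by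
  simp only [AA, card_filter]
  rw [sum_comm]
  calc _ ≤ ∑ p ∈ P, 2 := by
        refine sum_le_sum fun p _ => ?_
        rw [← card_filter]
        calc _ ≤ ({cc P h p, cc P h p + h p} : Finset V).card := by
              apply card_le_card
              intro x hx
              rw [mem_filter] at hx
              rw [mem_insert, mem_singleton]
              exact hx.2.2
          _ ≤ 2 := card_le_two
    _ = 2 * P.card := by rw [sum_const, smul_eq_mul, mul_comm]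

theorem card_XX {C : ℕ} (hC : ∀ A Z : Finset (ℝ × ℝ),
      (∀ p ∈ A ∪ Z, ∀ q ∈ A ∪ Z, p.1 = q.1 → p = q) → Disjoint A Z →
      (∀ L : ℝ × ℝ, ∃ q ∈ A, ¬ On L q) →
      (∀ p ∈ Z, ∀ q ∈ A, ∃ q' ∈ A, q' ≠ q ∧ ∃ L, On L p ∧ On L q ∧ On L q') →
      Z.card ≤ C * A.card)
    (h2 : ∀ v : V, v + v = 0)
    (hx : ∀ p ∈ P, ∀ q ∈ P, p.1 = q.1 → p = q)
    (H : ∀ L : ℝ × ℝ, 2 ≤ (P.filter (fun r => On L r)).card → ∑ r ∈ P.filter (fun r => On L r), h r = 0)
    (hP : ∀ L : ℝ × ℝ, ∃ r ∈ P, ¬ On L r) : (XX P h).card ≤ 2 * (C + 1) := by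
  rcases (XX P h).eq_empty_or_nonempty with h0 | h0
  · rw [h0]; simp
  obtain ⟨x0, hx0, hmin⟩ := exists_min_image (XX P h) (fun x => (AA P h x).card) h0
  have hA := XX_nonempty hx0
  have hsub : AA P h x0 ⊆ P := filter_subset _ _
  have h3 : (P \ AA P h x0).card ≤ C * (AA P h x0).card := by
    apply hC
    · rw [union_sdiff_of_subset hsub]
      exact hx
    · exact disjoint_sdiff
    · exact noncol h2 hx H hP x0 hA
    · intro p hp q hq
      rw [mem_sdiff] at hp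
      exact second h2 hx H x0 hp.1 (fun h0 => hp.2 (h0 ▸ hq)) hq hp.2
  have h4 : (XX P h).card * (AA P h x0).card ≤ 2 * P.card := by
    refine le_trans ?_ (sum_AA (P := P) (h := h))
    rw [← smul_eq_mul, ← sum_const]
    exact sum_le_sum hmin
  have h5 : P.card = (P \ AA P h x0).card + (AA P h x0).card := (card_sdiff_add_card_eq_card hsub).symm
  have h6 : 0 < (AA P h x0).card := card_pos.2 hA
  have h7 : (XX P h).card * (AA P h x0).card ≤ (2 * (C + 1)) * (AA P h x0).card := by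
    nlinarith
  exact Nat.le_of_mul_le_mul_right h7 h6

theorem finrank_le [Module (ZMod 2) V] {C : ℕ} (hC : ∀ A Z : Finset (ℝ × ℝ),
      (∀ p ∈ A ∪ Z, ∀ q ∈ A ∪ Z, p.1 = q.1 → p = q) → Disjoint A Z →
      (∀ L : ℝ × ℝ, ∃ q ∈ A, ¬ On L q) →
      (∀ p ∈ Z, ∀ q ∈ A, ∃ q' ∈ A, q' ≠ q ∧ ∃ L, On L p ∧ On L q ∧ On L q') →
      Z.card ≤ C * A.card)
    (hx : ∀ p ∈ P, ∀ q ∈ P, p.1 = q.1 → p = q)
    (H : ∀ L : ℝ × ℝ, 2 ≤ (P.filter (fun r => On L r)).card → ∑ r ∈ P.filter (fun r => On L r), h r = 0)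
    (hP : ∀ L : ℝ × ℝ, ∃ r ∈ P, ¬ On L r) :
    Module.finrank (ZMod 2) (Submodule.span (ZMod 2) (h '' (P : Set (ℝ × ℝ)))) ≤ 2 * (C + 1) := by
  have h2 : ∀ v : V, v + v = 0 := fun v => ZModModule.add_self v
  have h3 := card_XX hC h2 hx H hP
  have h4 : Submodule.span (ZMod 2) (h '' (P : Set (ℝ × ℝ))) ≤
      Submodule.span (ZMod 2) ((XX P h : Finset V) : Set V) := by
    rw [Submodule.span_le]
    rintro v ⟨p, hp, rfl⟩
    by_cases hz : h p = 0
    · rw [hz]; exact Submodule.zero_mem _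
    have e : h p = cc P h p + (cc P h p + h p) := by
      rw [← add_assoc, h2, zero_add]
    rw [e]
    refine Submodule.add_mem _ (Submodule.subset_span ?_) (Submodule.subset_span ?_)
    · rw [mem_coe, XX, mem_union]
      left; exact mem_image_of_mem _ (mem_filter.2 ⟨mem_coe.1 hp, hz⟩)
    · rw [mem_coe, XX, mem_union]
      right; exact mem_image_of_mem (fun p => cc P h p + h p) (mem_filter.2 ⟨mem_coe.1 hp, hz⟩)
  calc _ ≤ Module.finrank (ZMod 2) (Submodule.span (ZMod 2) ((XX P h : Finset V) : Set V)) :=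
        Submodule.finrank_mono h4
    _ ≤ (XX P h).card := finrank_span_finset_le_card _
    _ ≤ _ := h3

end Pool.Agent.R100.LS
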