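import Pool.Agent.R100.LS.Dim

set_option autoImplicit false

/-!
# The line-switching game: arbitrary point sets (project LS, helper100)
-/

namespace Pool.Agent.R100.LS

open Finset
open scoped Classical

/-- twice the signed area of the triangle `a b c` -/
def cr (a b c : ℝ × ℝ) : ℝ := (b.1 - a.1) * (c.2 - a.2) - (b.2 - a.2) * (c.1 - a.1)

lemma mem_line_iff {p q : ℝ × ℝ} (hpq : p ≠ q) (r : ℝ × ℝ) : r ∈ line[ℝ, p, q] ↔ cr p q r = 0 := by
  rw [mem_affineSpan_pair_iff_exists_lineMap_eq]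
  constructor
  · rintro ⟨t, rfl⟩
    simp only [AffineMap.lineMap_apply, cr, vsub_eq_sub, vadd_eq_add, Prod.fst_add, Prod.snd_add,
      Prod.smul_fst, Prod.smul_snd, Prod.fst_sub, Prod.snd_sub, smul_eq_mul]
    ring
  · intro h
    have hd : (q.1 - p.1) ^ 2 + (q.2 - p.2) ^ 2 ≠ 0 := by
      intro h0
      apply hpq
      have h1 : (q.1 - p.1) ^ 2 = 0 := by nlinarith [sq_nonneg (q.1 - p.1), sq_nonneg (q.2 - p.2)]
      have h2 : (q.2 - p.2) ^ 2 = 0 := by nlinarith [sq_nonneg (q.1 - p.1), sq_nonneg (q.2 - p.2)]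
      have h3 := pow_eq_zero_iff (n := 2) (by norm_num) |>.1 h1
      have h4 := pow_eq_zero_iff (n := 2) (by norm_num) |>.1 h2
      exact Prod.ext (by linarith) (by linarith)
    refine ⟨((r.1 - p.1) * (q.1 - p.1) + (r.2 - p.2) * (q.2 - p.2)) /
      ((q.1 - p.1) ^ 2 + (q.2 - p.2) ^ 2), ?_⟩
    simp only [cr] at h
    apply Prod.ext
    · simp only [AffineMap.lineMap_apply, vsub_eq_sub, vadd_eq_add, Prod.fst_add,
        Prod.smul_fst, Prod.fst_sub, smul_eq_mul]
      field_simp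
      linear_combination (q.2 - p.2) * h
    · simp only [AffineMap.lineMap_apply, vsub_eq_sub, vadd_eq_add, Prod.snd_add,
        Prod.smul_snd, Prod.snd_sub, smul_eq_mul]
      field_simp
      linear_combination (-(q.1 - p.1)) * h

lemma collinear_of_cr {P : Finset (ℝ × ℝ)}
    (h : ∀ p ∈ P, ∀ q ∈ P, ∀ r ∈ P, cr p q r = 0) : Collinear ℝ (P : Set (ℝ × ℝ)) := by
  rcases P.eq_empty_or_nonempty with rfl | ⟨p, hp⟩
  · simpa using collinear_empty ℝ (ℝ × ℝ)
  by_cases hq : ∃ q ∈ P, p ≠ q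
  · obtain ⟨q, hq, hpq⟩ := hq
    rw [collinear_iff_of_mem (mem_coe.2 hp)]
    refine ⟨q - p, fun r hr => ?_⟩
    have := (mem_line_iff hpq r).2 (h p hp q hq r (mem_coe.1 hr))
    rw [mem_affineSpan_pair_iff_exists_lineMap_eq] at this
    obtain ⟨t, ht⟩ := this
    refine ⟨t, ?_⟩
    rw [← ht]
    simp [AffineMap.lineMap_apply]
  · push Not at hq
    have : (P : Set (ℝ × ℝ)) = {p} := by
      ext q
      simp only [mem_coe, Set.mem_singleton_iff]
      exact ⟨fun h0 => (hq q h0).symm, fun h0 => h0 ▸ hp⟩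
    rw [this]
    exact collinear_singleton ℝ p

theorem finrank_gen {V : Type*} [AddCommGroup V] [Module (ZMod 2) V] {C : ℕ}
    (hC : ∀ A Z : Finset (ℝ × ℝ),
      (∀ p ∈ A ∪ Z, ∀ q ∈ A ∪ Z, p.1 = q.1 → p = q) → Disjoint A Z →
      (∀ L : ℝ × ℝ, ∃ q ∈ A, ¬ On L q) →
      (∀ p ∈ Z, ∀ q ∈ A, ∃ q' ∈ A, q' ≠ q ∧ ∃ L, On L p ∧ On L q ∧ On L q') →
      Z.card ≤ C * A.card)
    {P : Finset (ℝ × ℝ)} {h : ℝ × ℝ → V} (hP : ¬ Collinear ℝ (P : Set (ℝ × ℝ)))
    (H : ∀ p ∈ P, ∀ q ∈ P, p ≠ q → ∑ r ∈ P.filter (fun r => cr p q r = 0), h r = 0) :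
    Module.finrank (ZMod 2) (Submodule.span (ZMod 2) (h '' (P : Set (ℝ × ℝ)))) ≤ 2 * (C + 1) := by
  -- a generic shear
  obtain ⟨e, he⟩ := Infinite.exists_notMem_finset
    ((P ×ˢ P).image (fun p => (p.2.1 - p.1.1) / (p.1.2 - p.2.2)))
  set S : ℝ × ℝ → ℝ × ℝ := fun p => (p.1 + e * p.2, p.2) with hS
  set T : ℝ × ℝ → ℝ × ℝ := fun p => (p.1 - e * p.2, p.2) with hT
  have hTS : ∀ p, T (S p) = p := by
    intro p
    apply Prod.ext
    · show p.1 + e * p.2 - e * p.2 = p.1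
      ring
    · rfl
  have hSi : Function.Injective S := Function.LeftInverse.injective hTS
  have hcr : ∀ a b c, cr (S a) (S b) (S c) = cr a b c := by
    intro a b c
    simp only [hS, cr]
    ring
  have hx : ∀ p ∈ P.image S, ∀ q ∈ P.image S, p.1 = q.1 → p = q := by
    intro p hp q hq hpq
    obtain ⟨p', hp', rfl⟩ := mem_image.1 hp
    obtain ⟨q', hq', rfl⟩ := mem_image.1 hq
    have h1 : p'.1 + e * p'.2 = q'.1 + e * q'.2 := hpq
    by_cases h2 : p'.2 = q'.2
    · rw [h2] at h1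
      rw [Prod.ext (add_right_cancel h1) h2]
    · exfalso
      apply he
      refine mem_image.2 ⟨(p', q'), mem_product.2 ⟨hp', hq'⟩, ?_⟩
      have h3 : p'.2 - q'.2 ≠ 0 := sub_ne_zero.2 h2
      show (q'.1 - p'.1) / (p'.2 - q'.2) = e
      rw [div_eq_iff h3]
      linarith
  have hon : ∀ {L p q r : ℝ × ℝ}, p.1 ≠ q.1 → On L p → On L q → (On L r ↔ cr p q r = 0) := by
    intro L p q r hpq h1 h2
    unfold On at *
    simp only [cr]
    constructor
    · intro h3
      rw [h1, h2, h3]; ring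
    · intro h3
      have h4 : (q.1 - p.1) * (r.2 - (L.1 * r.1 + L.2)) = 0 := by
        rw [h1, h2] at h3
        linear_combination h3
      rcases mul_eq_zero.1 h4 with h5 | h5
      · exact absurd (by linarith) hpq
      · linarith
  have key := finrank_le (P := P.image S) (h := fun p => h (T p)) hC hx (by
    intro L hL
    have h1 : 1 < ((P.image S).filter (fun r => On L r)).card := by omega
    obtain ⟨p', hp', q', hq', hne⟩ := one_lt_card.1 h1
    rw [mem_filter] at hp' hq'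
    obtain ⟨p, hp, rfl⟩ := mem_image.1 hp'.1
    obtain ⟨q, hq, rfl⟩ := mem_image.1 hq'.1
    have hpq : p ≠ q := fun h0 => hne (h0 ▸ rfl)
    have hne1 : (S p).1 ≠ (S q).1 := fun h0 => hne (hx _ hp'.1 _ hq'.1 h0)
    have e1 : (P.image S).filter (fun r => On L r) = (P.filter (fun r => cr p q r = 0)).image S := by
      ext r'
      simp only [mem_filter, mem_image]
      constructor
      · rintro ⟨⟨r, hr, rfl⟩, hrL⟩
        refine ⟨r, ⟨hr, ?_⟩, rfl⟩
        rw [← hcr]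
        exact (hon hne1 hp'.2 hq'.2).1 hrL
      · rintro ⟨r, ⟨hr, hrc⟩, rfl⟩
        refine ⟨⟨r, hr, rfl⟩, ?_⟩
        apply (hon hne1 hp'.2 hq'.2).2
        rw [hcr]
        exact hrc
    rw [e1, sum_image (fun _ _ _ _ h0 => hSi h0)]
    rw [← H p hp q hq hpq]
    exact sum_congr rfl (fun r _ => by rw [hTS])) (by
    intro L
    by_contra hcon
    push Not at hcon
    apply hP
    apply collinear_of_cr
    intro p hp q hq r hr
    rw [← hcr]
    by_cases hpq : (S p).1 = (S q).1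
    · have : p = q := hSi (hx _ (mem_image_of_mem _ hp) _ (mem_image_of_mem _ hq) hpq)
      subst this
      simp [cr]
    · exact (hon hpq (hcon _ (mem_image_of_mem _ hp)) (hcon _ (mem_image_of_mem _ hq))).1
        (hcon _ (mem_image_of_mem _ hr)))
  have e2 : (fun p => h (T p)) '' ((P.image S : Finset (ℝ × ℝ)) : Set (ℝ × ℝ)) = h '' (P : Set (ℝ × ℝ)) := by
    ext v
    simp only [Set.mem_image, mem_coe, mem_image]
    constructor
    · rintro ⟨_, ⟨p, hp, rfl⟩, rfl⟩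
      exact ⟨p, hp, by rw [hTS]⟩
    · rintro ⟨p, hp, rfl⟩
      exact ⟨S p, ⟨p, hp, rfl⟩, by rw [hTS]⟩
  rw [e2] at key
  exact key

end Pool.Agent.R100.LS
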