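import Pool.Agent.R100.LS.Gen

set_option autoImplicit false

/-!
# The line-switching game: the game (project LS, helper100)
-/

namespace Pool.Agent.R100.LS

open Finset
open scoped Classical

/-- `w'` arises from `w` by a switch along a connecting line of `P` -/
def IsSwitch (P : Finset (ℝ × ℝ)) (w w' : P → ℤˣ) : Prop :=
  ∃ p q : P, p ≠ q ∧ ∀ r : P,
    w' r = if (r : ℝ × ℝ) ∈ line[ℝ, (p : ℝ × ℝ), (q : ℝ × ℝ)] then -w r else w r

/-- `w` arises from `w0` by finitely many switches -/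
def Reachable (P : Finset (ℝ × ℝ)) (w0 w : P → ℤˣ) : Prop := Relation.ReflTransGen (IsSwitch P) w0 w

/-- the signed discrepancy -/
def disc (P : Finset (ℝ × ℝ)) (w : P → ℤˣ) : ℤ := ∑ p : P, ((w p : ℤˣ) : ℤ)

/-- `F(P, w0)` -/
noncomputable def F0 (P : Finset (ℝ × ℝ)) (w0 : P → ℤˣ) : ℤ :=
  sSup {d : ℤ | ∃ w : P → ℤˣ, Reachable P w0 w ∧ disc P w = d}

/-- `F(P)` -/
noncomputable def F (P : Finset (ℝ × ℝ)) : ℤ := sInf (Set.range (F0 P))

section

variable (P : Finset (ℝ × ℝ))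

/-- the indicator of a connecting line -/
noncomputable def ind (p q : P) : P → ZMod 2 :=
  fun r => if (r : ℝ × ℝ) ∈ line[ℝ, (p : ℝ × ℝ), (q : ℝ × ℝ)] then 1 else 0

/-- the code -/
noncomputable def Cd : Submodule (ZMod 2) (P → ZMod 2) :=
  Submodule.span (ZMod 2) {g | ∃ p q : P, p ≠ q ∧ g = ind P p q}

noncomputable def lab (r : P) : (P → ZMod 2) ⧸ Cd P := (Cd P).mkQ (Pi.single r 1)

noncomputable def flp (g : P → ZMod 2) (w : P → ℤˣ) : P → ℤˣ := fun r => if g r = 0 then w r else -w r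

end

variable {P : Finset (ℝ × ℝ)}

lemma zmod2 (a : ZMod 2) : a = 0 ∨ a = 1 := by
  revert a; decide

lemma flp_add (g g' : P → ZMod 2) (w : P → ℤˣ) : flp P (g + g') w = flp P g' (flp P g w) := by
  funext r
  simp only [flp, Pi.add_apply]
  rcases zmod2 (g r) with h | h <;> rcases zmod2 (g' r) with h' | h' <;>
    simp [h, h', (by decide : (1 : ZMod 2) + 1 = 0)]

lemma reach {g : P → ZMod 2} (hg : g ∈ Cd P) : ∀ w : P → ℤˣ, Reachable P w (flp P g w) := by
  induction hg using Submodule.span_induction with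
  | mem g hg =>
    obtain ⟨p, q, hpq, rfl⟩ := hg
    intro w
    refine Relation.ReflTransGen.single ⟨p, q, hpq, fun r => ?_⟩
    by_cases hr : (r : ℝ × ℝ) ∈ line[ℝ, (p : ℝ × ℝ), (q : ℝ × ℝ)]
    · simp [flp, ind, hr]
    · simp [flp, ind, hr]
  | zero =>
    intro w
    have : flp P 0 w = w := by funext r; simp [flp]
    rw [this]
    exact Relation.ReflTransGen.refl
  | add g g' _ _ ih ih' =>
    intro w
    rw [flp_add]
    exact (ih w).trans (ih' _)
  | smul a g _ ih =>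
    intro w
    rcases zmod2 a with rfl | rfl
    · rw [zero_smul]
      have : flp P 0 w = w := by funext r; simp [flp]
      rw [this]
      exact Relation.ReflTransGen.refl
    · rw [one_smul]
      exact ih w

lemma mkQ_eq_sum (g : P → ZMod 2) : (Cd P).mkQ g = ∑ r : P, g r • lab P r := by
  have : g = ∑ r : P, g r • (Pi.single r 1 : P → ZMod 2) := by
    funext s
    rw [Finset.sum_apply]
    simp [Pi.single_apply]
  conv_lhs => rw [this]
  rw [map_sum]
  simp only [map_smul, lab]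

theorem finrank_quot {C : ℕ}
    (hC : ∀ A Z : Finset (ℝ × ℝ),
      (∀ p ∈ A ∪ Z, ∀ q ∈ A ∪ Z, p.1 = q.1 → p = q) → Disjoint A Z →
      (∀ L : ℝ × ℝ, ∃ q ∈ A, ¬ On L q) →
      (∀ p ∈ Z, ∀ q ∈ A, ∃ q' ∈ A, q' ≠ q ∧ ∃ L, On L p ∧ On L q ∧ On L q') →
      Z.card ≤ C * A.card)
    (hP : ¬ Collinear ℝ (P : Set (ℝ × ℝ))) :
    Module.finrank (ZMod 2) ((P → ZMod 2) ⧸ Cd P) ≤ 2 * (C + 1) := by
  set h : ℝ × ℝ → ((P → ZMod 2) ⧸ Cd P) := fun x => if hx : x ∈ P then lab P ⟨x, hx⟩ else 0 with hh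
  have hlab : ∀ r : P, h r = lab P r := by
    intro r
    simp [hh]
  have key := finrank_gen (P := P) (h := h) hC hP (by
    intro p hp q hq hpq
    have e0 : ∑ r ∈ P.filter (fun r => cr p q r = 0), h r = (Cd P).mkQ (ind P ⟨p, hp⟩ ⟨q, hq⟩) := by
      rw [mkQ_eq_sum, sum_filter, ← Finset.sum_coe_sort P (fun r => if cr p q r = 0 then h r else 0)]
      refine sum_congr rfl fun r _ => ?_
      simp only [ind]
      by_cases hr : cr p q r = 0
      · rw [if_pos hr, if_pos ((mem_line_iff hpq _).2 hr), one_smul, hlab]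
      · rw [if_neg hr, if_neg (fun h0 => hr ((mem_line_iff hpq _).1 h0)), zero_smul]
    rw [e0]
    simp only [Submodule.mkQ_apply]
    rw [Submodule.Quotient.mk_eq_zero]
    exact Submodule.subset_span ⟨⟨p, hp⟩, ⟨q, hq⟩, fun h0 => hpq (Subtype.ext_iff.1 h0), rfl⟩)
  have htop : Submodule.span (ZMod 2) (h '' (P : Set (ℝ × ℝ))) = ⊤ := by
    rw [eq_top_iff]
    rintro v -
    obtain ⟨g, rfl⟩ := Submodule.mkQ_surjective _ v
    rw [mkQ_eq_sum]
    refine Submodule.sum_mem _ fun r _ => Submodule.smul_mem _ _ (Submodule.subset_span ?_)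
    exact ⟨r, r.2, hlab r⟩
  rw [htop, finrank_top] at key
  exact key

lemma leader (g : P → ZMod 2) : ∃ T : Finset P,
    T.card ≤ Module.finrank (ZMod 2) ((P → ZMod 2) ⧸ Cd P) ∧
    g - (fun r => if r ∈ T then 1 else 0) ∈ Cd P := by
  have hsum : ∀ T : Finset P, ∑ r ∈ T, lab P r = (Cd P).mkQ (fun r => if r ∈ T then 1 else 0) := by
    intro T
    rw [mkQ_eq_sum]
    simp only [ite_smul, one_smul, zero_smul]
    rw [Finset.sum_ite_mem, Finset.univ_inter]
  have hne : ((univ : Finset (Finset P)).filter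
      (fun T => ∑ r ∈ T, lab P r = (Cd P).mkQ g)).Nonempty := by
    refine ⟨univ.filter (fun r => g r = 1), ?_⟩
    rw [mem_filter, hsum]
    refine ⟨mem_univ _, ?_⟩
    congr 1
    funext r
    simp only [mem_filter, mem_univ, true_and]
    rcases zmod2 (g r) with h | h <;> simp [h]
  obtain ⟨T, hT, hmin⟩ := exists_min_image _ (fun T : Finset P => T.card) hne
  rw [mem_filter] at hT
  refine ⟨T, ?_, ?_⟩
  · have hli : LinearIndependent (ZMod 2) (fun t : T => lab P (t : P)) := by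
      rw [Fintype.linearIndependent_iff]
      intro c hc
      by_contra hcon
      push Not at hcon
      obtain ⟨i0, hi0⟩ := hcon
      set c' : P → ZMod 2 := fun r => if hr : r ∈ T then c ⟨r, hr⟩ else 0 with hc'
      have h0 : ∑ r ∈ T, c' r • lab P r = 0 := by
        rw [← hc, ← Finset.sum_coe_sort T (fun r => c' r • lab P r)]
        refine sum_congr rfl fun r _ => ?_
        simp [hc']
      have h1 : ∑ r ∈ T.filter (fun r => c' r ≠ 0), lab P r = 0 := by
        rw [← h0, sum_filter]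
        refine sum_congr rfl fun r _ => ?_
        rcases zmod2 (c' r) with h | h <;> simp [h]
      have h2 : i0.1 ∈ T.filter (fun r => c' r ≠ 0) := by
        rw [mem_filter]
        refine ⟨i0.2, ?_⟩
        simpa [hc'] using hi0
      have h3 : ∑ r ∈ T.filter (fun r => ¬ c' r ≠ 0), lab P r = (Cd P).mkQ g := by
        rw [← hT.2, ← sum_filter_add_sum_filter_not T (fun r => c' r ≠ 0), h1, zero_add]
      have h4 := hmin (T.filter (fun r => ¬ c' r ≠ 0)) (mem_filter.2 ⟨mem_univ _, h3⟩)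
      have h5 := card_filter_add_card_filter_not (s := T) (fun r => c' r ≠ 0)
      have h6 : 0 < (T.filter (fun r => c' r ≠ 0)).card := card_pos.2 ⟨_, h2⟩
      omega
    have := hli.fintype_card_le_finrank
    simpa using this
  · have := hT.2
    rw [hsum, ← sub_eq_zero, ← map_sub] at this
    have h5 := this
    simp only [Submodule.mkQ_apply] at h5
    rw [Submodule.Quotient.mk_eq_zero] at h5
    have h6 := (Cd P).neg_mem h5
    rwa [neg_sub] at h6

theorem main_of {C : ℕ}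
    (hC : ∀ A Z : Finset (ℝ × ℝ),
      (∀ p ∈ A ∪ Z, ∀ q ∈ A ∪ Z, p.1 = q.1 → p = q) → Disjoint A Z →
      (∀ L : ℝ × ℝ, ∃ q ∈ A, ¬ On L q) →
      (∀ p ∈ Z, ∀ q ∈ A, ∃ q' ∈ A, q' ≠ q ∧ ∃ L, On L p ∧ On L q ∧ On L q') →
      Z.card ≤ C * A.card)
    (hP : ¬ Collinear ℝ (P : Set (ℝ × ℝ))) (w0 : P → ℤˣ) :
    ∃ w, Reachable P w0 w ∧ (P.card : ℤ) - 4 * (C + 1) ≤ disc P w := by
  obtain ⟨T, hT, hg⟩ := leader (P := P) (fun r => if w0 r = -1 then 1 else 0)
  have hr := reach hg w0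
  refine ⟨_, hr, ?_⟩
  have hw : ∀ r : P, ((flp P ((fun r => if w0 r = -1 then 1 else 0) -
      (fun r => if r ∈ T then 1 else 0)) w0 r : ℤˣ) : ℤ) = 1 - (if r ∈ T then 2 else 0) := by
    intro r
    set g : P → ZMod 2 := (fun r => if w0 r = -1 then 1 else 0) - (fun r => if r ∈ T then 1 else 0)
      with hgdef
    have hgr : g r = (if w0 r = -1 then 1 else 0) - (if r ∈ T then 1 else 0) := rfl
    show (((if g r = 0 then w0 r else -w0 r) : ℤˣ) : ℤ) = _
    rcases Int.units_eq_one_or (w0 r) with h | h <;> by_cases hrT : r ∈ T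
    · have h5 : g r = 1 := by
        rw [hgr, if_neg (by rw [h]; decide), if_pos hrT]; decide
      rw [if_neg (by rw [h5]; decide), h, if_pos hrT]
      norm_num
    · have h5 : g r = 0 := by
        rw [hgr, if_neg (by rw [h]; decide), if_neg hrT]; decide
      rw [if_pos h5, h, if_neg hrT]
      norm_num
    · have h5 : g r = 0 := by
        rw [hgr, if_pos h, if_pos hrT]; decide
      rw [if_pos h5, h, if_pos hrT]
      norm_num
    · have h5 : g r = 1 := by
        rw [hgr, if_pos h, if_neg hrT]; decide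
      rw [if_neg (by rw [h5]; decide), h, if_neg hrT]
      norm_num
  have hd : disc P (flp P ((fun r => if w0 r = -1 then 1 else 0) -
      (fun r => if r ∈ T then 1 else 0)) w0) = P.card - 2 * T.card := by
    rw [disc, sum_congr rfl (fun r _ => hw r), sum_sub_distrib, Finset.sum_ite_mem,
      Finset.univ_inter]
    simp
    ring
  rw [hd]
  have h1 := finrank_quot hC hP
  have h2 : T.card ≤ 2 * (C + 1) := hT.trans h1
  have h3 : (T.card : ℤ) ≤ 2 * (C + 1) := by exact_mod_cast h2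
  linarith

lemma disc_le (w : P → ℤˣ) : disc P w ≤ P.card := by
  rw [disc]
  calc ∑ p : P, ((w p : ℤˣ) : ℤ) ≤ ∑ _p : P, (1 : ℤ) := by
        refine sum_le_sum fun p _ => ?_
        rcases Int.units_eq_one_or (w p) with h | h <;> rw [h] <;> norm_num
    _ = P.card := by simp

theorem main (hC : S_Count) : ∃ c : ℤ, ∀ P : Finset (ℝ × ℝ), ¬ Collinear ℝ (P : Set (ℝ × ℝ)) →
    (P.card : ℤ) - c ≤ F P := by
  obtain ⟨C, hC⟩ := hC
  refine ⟨4 * (C + 1), fun P hP => ?_⟩
  refine le_csInf (Set.range_nonempty _) ?_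
  rintro _ ⟨w0, rfl⟩
  obtain ⟨w, hw, hd⟩ := main_of hC hP w0
  refine hd.trans (le_csSup ?_ ⟨w, hw, rfl⟩)
  refine ⟨P.card, ?_⟩
  rintro _ ⟨w', -, rfl⟩
  exact disc_le w'

end Pool.Agent.R100.LS
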