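import Pool.Agent.R100.LS.Dim
import Pool.Agent.Helper309.Aff.A1

set_option autoImplicit false

/-!
# The line-switching game: Szemeredi-Trotter tools (project LS, helper100)
-/

namespace Pool.Agent.R100.LS

open Finset
open scoped Classical

/-- Szemeredi-Trotter for rich lines and arbitrary point sets -/
theorem stg' (V Ls : Finset (ℝ × ℝ)) (j : ℕ) (hj : 2 ≤ j)
    (h : ∀ l ∈ Ls, j ≤ (V.filter (fun p => p.2 = l.1 * p.1 + l.2)).card) :
    j ^ 3 * Ls.card ≤ 576 * (V.card ^ 2 + j ^ 2 * V.card) := by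
  -- a generic shear
  obtain ⟨e, he⟩ := Infinite.exists_notMem_finset
    ((V ×ˢ V).image (fun p => (p.2.1 - p.1.1) / (p.1.2 - p.2.2)) ∪ Ls.image (fun l => -(1 / l.1)) ∪ {0})
  rw [mem_union, mem_union, not_or, not_or, mem_singleton] at he
  obtain ⟨⟨he1, he2⟩, he0⟩ := he
  have hl : ∀ l ∈ Ls, 1 + l.1 * e ≠ 0 := by
    intro l hlL h0
    apply he2
    refine mem_image.2 ⟨l, hlL, ?_⟩
    have hl0 : l.1 ≠ 0 := by
      rintro h1
      rw [h1, zero_mul, add_zero] at h0
      exact one_ne_zero h0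
    field_simp
    linarith
  let S : ℝ × ℝ → ℝ × ℝ := fun p => (p.1 + e * p.2, p.2)
  let T : ℝ × ℝ → ℝ × ℝ := fun l => (l.1 / (1 + l.1 * e), l.2 / (1 + l.1 * e))
  have hSi : Function.Injective S := by
    intro p q hpq
    have h2 : p.2 = q.2 := by
      have := congrArg Prod.snd hpq
      exact this
    have h1 : p.1 + e * p.2 = q.1 + e * q.2 := by
      have := congrArg Prod.fst hpq
      exact this
    rw [h2] at h1
    exact Prod.ext (add_right_cancel h1) h2
  have hTi : Set.InjOn T Ls := by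
    intro l hlL l' hlL' hll
    have a1 := hl l (mem_coe.1 hlL)
    have a2 := hl l' (mem_coe.1 hlL')
    have h1 : l.1 / (1 + l.1 * e) = l'.1 / (1 + l'.1 * e) := by
      have := congrArg Prod.fst hll
      exact this
    have h2 : l.2 / (1 + l.1 * e) = l'.2 / (1 + l'.1 * e) := by
      have := congrArg Prod.snd hll
      exact this
    rw [div_eq_div_iff a1 a2] at h1 h2
    have h3 : l.1 = l'.1 := by linarith
    rw [h3] at h2
    rw [h3] at a1
    exact Prod.ext h3 (mul_right_cancel₀ a1 (by linarith))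
  have hx : ∀ p ∈ V.image S, ∀ q ∈ V.image S, p.1 = q.1 → p = q := by
    intro p hp q hq hpq
    obtain ⟨p', hp', rfl⟩ := mem_image.1 hp
    obtain ⟨q', hq', rfl⟩ := mem_image.1 hq
    have h1 : p'.1 + e * p'.2 = q'.1 + e * q'.2 := hpq
    by_cases h2 : p'.2 = q'.2
    · rw [h2] at h1
      rw [Prod.ext (add_right_cancel h1) h2]
    · exfalso
      apply he1
      refine mem_image.2 ⟨(p', q'), mem_product.2 ⟨hp', hq'⟩, ?_⟩
      have h3 : p'.2 - q'.2 ≠ 0 := sub_ne_zero.2 h2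
      show (q'.1 - p'.1) / (p'.2 - q'.2) = e
      rw [div_eq_iff h3]
      linarith
  have key := Pool.Agent.Helper309.Aff.st_rich (V := V.image S) (Ls := Ls.image T) hx hj (by
    intro L hL
    obtain ⟨l, hlL, rfl⟩ := mem_image.1 hL
    refine (h l hlL).trans ?_
    apply card_le_card_of_injOn S
    · intro p hp
      have hp' := mem_filter.1 (mem_coe.1 hp)
      refine mem_coe.2 (mem_filter.2 ⟨mem_image_of_mem _ hp'.1, ?_⟩)
      show p.2 = l.1 / (1 + l.1 * e) * (p.1 + e * p.2) + l.2 / (1 + l.1 * e)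
      have a1 := hl l hlL
      have h2 := hp'.2
      field_simp
      linarith
    · intro p _ q _ hpq
      exact hSi hpq)
  rw [card_image_of_injective _ hSi, card_image_of_injOn hTi] at key
  exact key

/-- number of points of `A` on `L` -/
noncomputable def kk (A : Finset (ℝ × ℝ)) (L : ℝ × ℝ) : ℕ := (A.filter (fun q => On L q)).card

lemma sum_Ioc_id (q s : ℕ) (h : q ≤ s) : 2 * ∑ j ∈ Ioc q s, j + q * (q + 1) = s * (s + 1) := by
  induction s, h using Nat.le_induction with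
  | base => simp
  | succ s hs ih =>
    rw [Finset.sum_Ioc_succ_top hs]
    nlinarith

lemma sq_le_sum (q s : ℕ) (h : 2 * q ≤ s) : s ^ 2 ≤ 4 * ∑ j ∈ Ioc q s, j := by
  have h1 := sum_Ioc_id q s (by omega)
  have h2 : q * (q + 1) * 4 ≤ s * s + 2 * s := by nlinarith
  nlinarith

/-- the sum over the heavy lines -/
lemma heavy_sum {X : Finset (ℝ × ℝ)} (hX : ∀ x ∈ X, ∀ y ∈ X, x.1 = y.1 → x = y)
    {Hs : Finset (ℝ × ℝ)} {b : ℕ} (hb : (20000 : ℝ) ≤ b)
    (h1 : ∀ H ∈ Hs, 2 * b ≤ kk X H) (h2 : ∀ H ∈ Hs, b * kk X H ≤ X.card) :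
    4 * ∑ H ∈ Hs, kk X H ^ 2 ≤ X.card ^ 2 := by
  have hb0R : (0 : ℝ) < b := by linarith
  have hb0 : 0 < b := by exact_mod_cast hb0R
  have hb1 : 1 < b := by
    have : (1 : ℝ) < b := by linarith
    exact_mod_cast this
  set n := X.card with hn
  set s : ℝ × ℝ → ℕ := fun H => kk X H with hs
  set m := n / b with hm
  have hsm : ∀ H ∈ Hs, s H ≤ m := fun H hH => by
    rw [hm, Nat.le_div_iff_mul_le hb0, mul_comm]
    exact h2 H hH
  have hN : ∀ j ∈ Ioc b m, (j : ℝ) * ((Hs.filter (fun H => j ≤ s H)).card : ℝ) ≤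
      576 * ((n : ℝ) ^ 2 * ((j : ℝ) ^ 2)⁻¹ + n) := by
    intro j hj
    rw [Finset.mem_Ioc] at hj
    have h3 := Pool.Agent.Helper309.Aff.st_rich (V := X) (Ls := Hs.filter (fun H => j ≤ s H)) hX
      (j := j) (by omega) (fun H hH => (Finset.mem_filter.1 hH).2)
    have h4 : (j : ℝ) ^ 3 * ((Hs.filter (fun H => j ≤ s H)).card : ℝ) ≤
        576 * ((n : ℝ) ^ 2 + (j : ℝ) ^ 2 * n) := by exact_mod_cast h3
    have hj0 : (0 : ℝ) < j := by
      have : 0 < j := by omega
      exact_mod_cast this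
    have h5 : (j : ℝ) * ((Hs.filter (fun H => j ≤ s H)).card : ℝ) =
        ((j : ℝ) ^ 2)⁻¹ * ((j : ℝ) ^ 3 * ((Hs.filter (fun H => j ≤ s H)).card : ℝ)) := by
      field_simp
    rw [h5]
    calc _ ≤ ((j : ℝ) ^ 2)⁻¹ * (576 * ((n : ℝ) ^ 2 + (j : ℝ) ^ 2 * n)) :=
          mul_le_mul_of_nonneg_left h4 (by positivity)
      _ = 576 * ((n : ℝ) ^ 2 * ((j : ℝ) ^ 2)⁻¹ + n) := by field_simp
  have hA : ∑ H ∈ Hs, s H ^ 2 ≤ 4 * ∑ j ∈ Ioc b m, j * (Hs.filter (fun H => j ≤ s H)).card := by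
    calc ∑ H ∈ Hs, s H ^ 2 ≤ ∑ H ∈ Hs, 4 * ∑ j ∈ Ioc b (s H), j :=
          Finset.sum_le_sum fun H hH => sq_le_sum b (s H) (h1 H hH)
      _ = 4 * ∑ H ∈ Hs, ∑ j ∈ Ioc b (s H), j := by rw [Finset.mul_sum]
      _ = 4 * ∑ H ∈ Hs, ∑ j ∈ Ioc b m, if j ≤ s H then j else 0 := by
          congr 1
          refine Finset.sum_congr rfl fun H hH => ?_
          rw [← Finset.sum_filter]
          refine Finset.sum_congr ?_ fun _ _ => rfl
          ext j
          have := hsm H hH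
          simp only [Finset.mem_Ioc, Finset.mem_filter]
          omega
      _ = 4 * ∑ j ∈ Ioc b m, ∑ H ∈ Hs, if j ≤ s H then j else 0 := by rw [Finset.sum_comm]
      _ = _ := by
          congr 1
          refine Finset.sum_congr rfl fun j _ => ?_
          rw [← Finset.sum_filter, Finset.sum_const, smul_eq_mul, mul_comm]
  have hB : ((∑ j ∈ Ioc b m, j * (Hs.filter (fun H => j ≤ s H)).card : ℕ) : ℝ) ≤
      576 * ((n : ℝ) ^ 2 * (2 / b)) := by
    push_cast
    rcases le_or_gt b m with hq | hq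
    · calc _ ≤ ∑ j ∈ Ioc b m, 576 * ((n : ℝ) ^ 2 * ((j : ℝ) ^ 2)⁻¹ + n) := Finset.sum_le_sum hN
        _ = 576 * ((n : ℝ) ^ 2 * ∑ j ∈ Ioc b m, ((j : ℝ) ^ 2)⁻¹ + (Ioc b m).card * n) := by
            rw [← Finset.mul_sum, Finset.sum_add_distrib, ← Finset.mul_sum, Finset.sum_const,
              nsmul_eq_mul]
        _ ≤ 576 * ((n : ℝ) ^ 2 * (b : ℝ)⁻¹ + (n / b) * n) := by
            refine mul_le_mul_of_nonneg_left (add_le_add ?_ ?_) (by norm_num)
            · refine mul_le_mul_of_nonneg_left ?_ (by positivity)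
              have := sum_Ioc_inv_sq_le_sub (α := ℝ) (k := b) (n := m) hb0.ne' hq
              have h0 : (0 : ℝ) ≤ (m : ℝ)⁻¹ := by positivity
              linarith
            · refine mul_le_mul_of_nonneg_right ?_ (by positivity)
              rw [Nat.card_Ioc]
              have h6 : ((m - b : ℕ) : ℝ) ≤ (m : ℝ) := by exact_mod_cast Nat.sub_le _ _
              have h7 : (m : ℝ) ≤ (n : ℝ) / b := by
                rw [hm]
                exact Nat.cast_div_le
              linarith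
        _ = _ := by
            field_simp
            ring
    · rw [Finset.Ioc_eq_empty (by omega), Finset.sum_empty]
      positivity
  have hA' : ((∑ H ∈ Hs, s H ^ 2 : ℕ) : ℝ) ≤
      4 * ((∑ j ∈ Ioc b m, j * (Hs.filter (fun H => j ≤ s H)).card : ℕ) : ℝ) := by
    exact_mod_cast hA
  have hC : ((4 * ∑ H ∈ Hs, s H ^ 2 : ℕ) : ℝ) ≤ ((n ^ 2 : ℕ) : ℝ) := by
    rw [Nat.cast_mul, Nat.cast_pow]
    have h0 : (0 : ℝ) ≤ (n : ℝ) ^ 2 := by positivity
    have h8 : (2 : ℝ) / b ≤ 1 / 10000 := by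
      rw [div_le_div_iff₀ hb0R (by norm_num)]
      linarith
    have h9 : (n : ℝ) ^ 2 * (2 / b) ≤ (n : ℝ) ^ 2 * (1 / 10000) := mul_le_mul_of_nonneg_left h8 h0
    have : ((4 : ℕ) : ℝ) = 4 := by norm_num
    rw [this]
    linarith
  exact_mod_cast hC

end Pool.Agent.R100.LS
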