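import Mathlib

set_option autoImplicit false

/-!
# The line-switching game: statement of the counting lemma (project LS, helper100)
-/

namespace Pool.Agent.R100.LS

/-- the point `p` lies on the non-vertical line with slope `L.1` and intercept `L.2` -/
def On (L p : ℝ × ℝ) : Prop := p.2 = L.1 * p.1 + L.2

/-- Counting lemma: if every line through a point of `Z` and a point of `A` contains a second point
of `A`, and `A` is not contained in a line, then `Z` has at most `C * A.card` points. -/
def S_Count : Prop := ∃ C : ℕ, ∀ A Z : Finset (ℝ × ℝ),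
  (∀ p ∈ A ∪ Z, ∀ q ∈ A ∪ Z, p.1 = q.1 → p = q) → Disjoint A Z →
  (∀ L : ℝ × ℝ, ∃ q ∈ A, ¬ On L q) →
  (∀ p ∈ Z, ∀ q ∈ A, ∃ q' ∈ A, q' ≠ q ∧ ∃ L, On L p ∧ On L q ∧ On L q') →
  Z.card ≤ C * A.card

end Pool.Agent.R100.LS
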